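import Pool.Agent.TH285.MG.Fam2
import Pool.Agent.X186.MJ.F

/-!
# Margulis' conjecture over subfields of Galois extensions with small conjugacy classes
-/

set_option autoImplicit false

namespace Pool.Agent.X186.MK

open NumberField Module Filter Topology
open Pool.Agent.W238.Leh (act act_smul)
open Pool.Agent.H225R3.Marg
open Pool.Agent.H627.LP (Wnd InsepN Conj)
open Pool.Agent.H420R3 (mi v_le_one v_lt_one_iff)
open Pool.Agent.TH285.MG

/-- the upper bound for the canonical height -/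
theorem height_upper {K L : Type} [Field K] [NumberField K] [Field L] [NumberField L]
    [Algebra K L] (p n : ℕ) (hp : p.Prime) (A : Matrix (Fin n) (Fin n) (𝓞 L))
    (S : Finset (L →+* ℂ)) (R : ℝ) (hR : 1 ≤ R)
    (hout : ∀ σ : L →+* ℂ, σ ∉ S → ∀ l : ℂ, ((emb σ).mapMatrix A).charpoly.IsRoot l → ‖l‖ ≤ 1)
    (hin : ∀ σ ∈ S, ∀ l : ℂ, ((emb σ).mapMatrix A).charpoly.IsRoot l → ‖l‖ ≤ R) (h : ℝ)
    (hlim : Tendsto (fun j : ℕ => Height.logHeight ((act (frK K p n))^[j] (xv A)) /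
      ((finrank ℚ L : ℝ) * ((p ^ 1 : ℕ) : ℝ) ^ j)) atTop (𝓝 h)) :
    h ≤ 2 * S.card * n * Real.log R / finrank ℚ L := by
  set d : ℕ := finrank ℚ L with hd
  have hd0 : (0 : ℝ) < d := by
    have : 0 < finrank ℚ L := finrank_pos
    exact_mod_cast this
  have hp1 : (1 : ℝ) < p := by exact_mod_cast hp.one_lt
  have hub : ∀ j : ℕ, Height.logHeight ((act (frK K p n))^[j] (xv A)) /
      ((d : ℝ) * ((p ^ 1 : ℕ) : ℝ) ^ j) ≤
      n * Real.log 2 * ((p : ℝ)⁻¹) ^ j + 2 * S.card * n * Real.log R / d := by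
    intro j
    obtain ⟨u, hu, h1⟩ := act_iter_xv (K := K) p hp.pos A j
    rw [h1, Height.logHeight_smul_eq_logHeight _ hu]
    have hpj : 0 < p ^ j := Nat.pow_pos hp.pos
    have h2 := mulHeight_xv_le A S R hR hout hin (p ^ j) hpj
    have hmh : 0 < Height.mulHeight (xv (A ^ p ^ j)) := Height.mulHeight_pos _
    have h3 : Height.logHeight (xv (A ^ p ^ j)) ≤
        d * (n * Real.log 2) + 2 * S.card * (n * p ^ j * Real.log R) := by
      rw [Height.logHeight]
      refine (Real.log_le_log hmh h2).trans ?_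
      rw [Real.log_mul (by positivity) (by positivity), Real.log_pow, Real.log_pow, Real.log_pow,
        Real.log_pow]
      push_cast
      rw [hd]
    have hpj' : (0 : ℝ) < (p : ℝ) ^ j := by positivity
    rw [pow_one, div_le_iff₀ (by positivity)]
    have h5 : (n * Real.log 2 * ((p : ℝ)⁻¹) ^ j + 2 * S.card * n * Real.log R / d) *
        (d * (p : ℝ) ^ j) =
        d * (n * Real.log 2) + 2 * S.card * (n * p ^ j * Real.log R) := by
      rw [inv_pow]
      field_simp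
    rw [h5]
    linarith
  have hlim2 : Tendsto (fun j : ℕ => (n : ℝ) * Real.log 2 * ((p : ℝ)⁻¹) ^ j +
      2 * S.card * n * Real.log R / d) atTop
      (𝓝 ((n : ℝ) * Real.log 2 * 0 + 2 * S.card * n * Real.log R / d)) := by
    refine Tendsto.add_const _ (Tendsto.const_mul _ ?_)
    exact tendsto_pow_atTop_nhds_zero_of_lt_one (by positivity) (inv_lt_one_of_one_lt₀ hp1)
  have hle := le_of_tendsto_of_tendsto' hlim hlim2 hub
  rwa [mul_zero, zero_add] at hle

/-- embeddings of a matrix over a subfield -/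
theorem emb_map {k k' : Type} [Field k] [NumberField k] [Field k'] [NumberField k'] [Algebra k k']
    {n : ℕ} (A : Matrix (Fin n) (Fin n) (𝓞 k)) (τ : k' →+* ℂ) :
    (emb τ).mapMatrix ((algebraMap (𝓞 k) (𝓞 k')).mapMatrix A) =
      (emb (τ.comp (algebraMap k k'))).mapMatrix A := by
  ext i j
  rfl

/-- **The gap over subfields of Galois extensions with small conjugacy classes.** -/
theorem gap_small (K : Type) [Field K] [NumberField K] (p : ℕ) (hp : p.Prime) (P : Ideal (𝓞 K))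
    (hP : P.IsPrime) (hpP : (p : 𝓞 K) ∈ P) (m B n : ℕ) (hm : 1 ≤ m) :
    ∃ C : ℝ, 0 < C ∧ ∀ (k k' : Type) [Field k] [NumberField k] [Field k'] [NumberField k']
      [Algebra k k'] [Algebra K k'] [IsGalois K k'] (e : ℕ), 0 < e →
      (∀ σ : Gal(k'/K), (Set.range fun g : Gal(k'/K) => g * σ ^ m * g⁻¹).ncard ≤ B) →
      (∀ 𝔓 : Ideal (𝓞 k'), 𝔓.IsPrime → 𝔓.under (𝓞 K) = P → 𝔓.ramificationIdx (𝓞 K) ≤ e) →
      ∀ (S : Finset (k →+* ℂ)) (A : Matrix (Fin n) (Fin n) (𝓞 k)), IsUnit A →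
      (∀ σ : k →+* ℂ, σ ∉ S → ∀ l : ℂ, ((emb σ).mapMatrix A).charpoly.IsRoot l → ‖l‖ ≤ 1) →
      (∀ N : ℕ, 0 < N → ¬ IsNilpotent (A ^ N - 1)) →
      ∃ σ ∈ S, ∃ l : ℂ, ((emb σ).mapMatrix A).charpoly.IsRoot l ∧ 1 < ‖l‖ ∧
        (finrank ℚ k : ℝ) ≤ C * e * S.card * Real.log ‖l‖ := by
  classical
  obtain ⟨v, hvP, hv⟩ := place_of_ideal K p hp P hP hpP
  obtain ⟨C, hC, hgal, -, -⟩ := Pool.Agent.H627.LP.final (N := n) (k := K) (K := K) hp
    (r := 1) le_rfl (frK K p n) 1 (by simp) (frK K p n) (fun i => by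
      rw [pow_one]
      exact frK_hom p n i) (conj_one K p n) v hv (frK_insep v p hp hv n) hm B
  refine ⟨2 * C * (n + 1), by positivity, ?_⟩
  intro k k' _ _ _ _ _ _ _ e he hB hram S A hA hout hN
  -- the matrix over `k'`
  set f := algebraMap (𝓞 k) (𝓞 k') with hf
  have hfinj : Function.Injective f := FaithfulSMul.algebraMap_injective (𝓞 k) (𝓞 k')
  have hminj : Function.Injective (f.mapMatrix : Matrix (Fin n) (Fin n) (𝓞 k) →+* _) := by
    intro X Y h
    ext i j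
    have := congrFun (congrFun h i) j
    exact congrArg _ (hfinj this)
  set A' := f.mapMatrix A with hA'
  have hA'u : IsUnit A' := hA.map f.mapMatrix
  have hN' : ∀ N : ℕ, 0 < N → ¬ IsNilpotent (A' ^ N - 1) := by
    intro N hN0 h0
    apply hN N hN0
    have h1 : A' ^ N - 1 = f.mapMatrix (A ^ N - 1) := by rw [map_sub, map_pow, map_one]
    rw [h1] at h0
    exact (IsNilpotent.map_iff hminj).mp h0
  set S' : Finset (k' →+* ℂ) := Finset.univ.filter (fun τ => τ.comp (algebraMap k k') ∈ S) with hS'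
  have hcard : S'.card = S.card * finrank k k' := card_over S
  have hout' : ∀ τ : k' →+* ℂ, τ ∉ S' → ∀ l : ℂ,
      ((emb τ).mapMatrix A').charpoly.IsRoot l → ‖l‖ ≤ 1 := by
    intro τ hτ l hl
    rw [hA', emb_map] at hl
    refine hout _ (fun h => hτ ?_) l hl
    rw [hS', Finset.mem_filter]
    exact ⟨Finset.mem_univ _, h⟩
  obtain ⟨h, hlim, -, hlow⟩ := hgal k' hB (xv A') (xv_ne A') (xv_wnd p hp.two_le A' hA'u hN')
  have hlow' : 1 / (C * e) ≤ h := by
    refine hlow e fun 𝔓 h𝔓 h1 => hram 𝔓 h𝔓 ?_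
    rw [h1, hvP, Ideal.under_def]
    exact Ideal.comap_id P
  -- the degrees
  have hfd : FiniteDimensional k k' := Module.Finite.of_restrictScalars_finite ℚ k k'
  have hkk' : (0 : ℝ) < finrank k k' := by exact_mod_cast (finrank_pos : 0 < finrank k k')
  have hk0 : (0 : ℝ) < finrank ℚ k := by exact_mod_cast (finrank_pos : 0 < finrank ℚ k)
  have htow : (finrank ℚ k' : ℝ) = finrank ℚ k * finrank k k' := by
    exact_mod_cast (Module.finrank_mul_finrank ℚ k k').symm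
  have heR : (0 : ℝ) < e := by exact_mod_cast he
  -- the consequence for a bound of the eigenvalues
  have key : ∀ R : ℝ, 1 ≤ R →
      (∀ σ ∈ S, ∀ l : ℂ, ((emb σ).mapMatrix A).charpoly.IsRoot l → ‖l‖ ≤ R) →
      (finrank ℚ k : ℝ) ≤ 2 * C * (n + 1) * e * S.card * Real.log R := by
    intro R hR hin
    have hin' : ∀ τ ∈ S', ∀ l : ℂ, ((emb τ).mapMatrix A').charpoly.IsRoot l → ‖l‖ ≤ R := by
      intro τ hτ l hl
      rw [hA', emb_map] at hl
      rw [hS', Finset.mem_filter] at hτ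
      exact hin _ hτ.2 l hl
    have h1 := hlow'.trans (height_upper p n hp A' S' R hR hout' hin' h hlim)
    rw [hcard, htow] at h1
    push_cast at h1
    have h2 : 2 * (S.card * finrank k k' : ℝ) * n * Real.log R / (finrank ℚ k * finrank k k') =
        2 * S.card * n * Real.log R / finrank ℚ k := by
      field_simp
    rw [h2, div_le_div_iff₀ (by positivity) hk0, one_mul] at h1
    have h3 : 0 ≤ Real.log R := Real.log_nonneg hR
    have h4 : 2 * (S.card : ℝ) * n * Real.log R * (C * e) ≤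
        2 * C * (n + 1) * e * S.card * Real.log R := by
      have h5 : 0 ≤ 2 * C * e * S.card * Real.log R := by positivity
      nlinarith
    linarith
  -- the largest eigenvalue
  let T : Finset (Σ _ : (k →+* ℂ), ℂ) :=
    S.sigma fun σ => ((emb σ).mapMatrix A).charpoly.roots.toFinset
  have hmemT : ∀ (σ : k →+* ℂ) (l : ℂ), (⟨σ, l⟩ : Σ _ : (k →+* ℂ), ℂ) ∈ T ↔
      σ ∈ S ∧ ((emb σ).mapMatrix A).charpoly.IsRoot l := by
    intro σ l
    rw [Finset.mem_sigma, Multiset.mem_toFinset,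
      Polynomial.mem_roots (Matrix.charpoly_monic _).ne_zero]
  obtain ⟨σ₁, l₁, h11, h12, h13⟩ : ∃ (σ : k →+* ℂ) (l : ℂ), σ ∈ S ∧
      ((emb σ).mapMatrix A).charpoly.IsRoot l ∧ 1 < ‖l‖ := by
    by_contra hcon
    push Not at hcon
    have := key 1 le_rfl fun σ hσ l hl => hcon σ l hσ hl
    rw [Real.log_one, mul_zero] at this
    linarith
  obtain ⟨⟨σ₀, l₀⟩, hmem, hmax⟩ := Finset.exists_max_image T (fun x => ‖x.2‖)
    ⟨⟨σ₁, l₁⟩, (hmemT _ _).mpr ⟨h11, h12⟩⟩
  obtain ⟨hσ₀, hl₀⟩ := (hmemT _ _).mp hmem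
  have h1 : 1 < ‖l₀‖ := h13.trans_le (hmax _ ((hmemT _ _).mpr ⟨h11, h12⟩))
  exact ⟨σ₀, hσ₀, l₀, hl₀, h1, key _ h1.le fun σ hσ l hl => hmax _ ((hmemT σ l).mpr ⟨hσ, hl⟩)⟩

end Pool.Agent.X186.MK
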