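import Pool.Agent.X186.MK.C

/-!
# Mahler measures of numbers of bounded degree over nearly abelian fields, II
-/

set_option autoImplicit false
set_option linter.unusedSectionVars false

namespace Pool.Agent.X186.MK

open NumberField Module Polynomial
open Pool.Agent.H225R3.Marg
open Pool.Agent.X186.MJ Pool.Agent.W963.GE

/-- `x` has degree at most `D` over a subfield of `ℂ` isomorphic to a subfield `k` of a finite Galois
extension `k'` of `K` such that, for all `σ` in the Galois group, `σ ^ m` has at most `B` conjugates,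
and the ramification indices of `k'` over `K` at the primes above `P` are at most `e` -/
def NearAb (K : Type) [Field K] [NumberField K] (P : Ideal (𝓞 K)) (m B e D : ℕ) (x : ℂ) : Prop :=
  ∃ (k k' : Type) (_ : Field k) (_ : NumberField k) (_ : Field k') (_ : NumberField k')
    (_ : Algebra k k') (_ : Algebra K k') (φ : k →+* ℂ),
    IsGalois K k' ∧
    (∀ σ : Gal(k'/K), (Set.range fun g : Gal(k'/K) => g * σ ^ m * g⁻¹).ncard ≤ B) ∧
    (∀ 𝔓 : Ideal (𝓞 k'), 𝔓.IsPrime → 𝔓.under (𝓞 K) = P → 𝔓.ramificationIdx (𝓞 K) ≤ e) ∧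
    (minpoly φ.fieldRange x).natDegree ≤ D

/-- the matrix of a number -/
lemma exists_mat {k L : Type} [Field k] [NumberField k] [Field L] [NumberField L] [Algebra k L]
    (y : L) (hy : IsIntegral ℤ y) : ∃ A : Matrix (Fin (minpoly k y).natDegree)
      (Fin (minpoly k y).natDegree) (𝓞 k),
      ∀ σ : k →+* ℂ, A.charpoly.map (emb σ) = (minpoly k y).map σ := by
  have hyR : IsIntegral (𝓞 k) y := hy.tower_top
  have h1 : minpoly k y = (minpoly (𝓞 k) y).map (algebraMap (𝓞 k) k) :=
    minpoly.isIntegrallyClosed_eq_field_fractions' k hyR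
  let pb := Algebra.adjoin.powerBasis' hyR
  have h2 : pb.dim = (minpoly k y).natDegree := by
    rw [h1, (minpoly.monic hyR).natDegree_map]
    exact Algebra.adjoin.powerBasis'_dim hyR
  have h3 : (Algebra.leftMulMatrix pb.basis pb.gen).charpoly = minpoly (𝓞 k) y := by
    rw [charpoly_leftMulMatrix pb]
    exact (Algebra.adjoin.powerBasis'_minpoly_gen hyR).symm
  have h4 : ∀ n : ℕ, pb.dim = n → ∃ A : Matrix (Fin n) (Fin n) (𝓞 k),
      A.charpoly = minpoly (𝓞 k) y := by
    rintro n rfl
    exact ⟨_, h3⟩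
  obtain ⟨A, hA⟩ := h4 _ h2
  refine ⟨A, fun σ => ?_⟩
  rw [hA, h1, Polynomial.map_map]
  rfl

/-- **Mahler measures of numbers of bounded degree over nearly abelian fields.** -/
theorem mahler_near (K : Type) [Field K] [NumberField K] (p : ℕ) (hp : p.Prime) (P : Ideal (𝓞 K))
    (hP : P.IsPrime) (hpP : (p : 𝓞 K) ∈ P) (m B D : ℕ) (hm : 1 ≤ m) :
    ∃ C : ℝ, 0 < C ∧ ∀ (e : ℕ), 0 < e → ∀ x : ℂ, IsIntegral ℤ x → x ≠ 0 →
      (∀ j : ℕ, 0 < j → x ^ j ≠ 1) → NearAb K P m B e D x →
      ((minpoly ℤ x).natDegree : ℝ) ≤ C * e * Real.log (MM x) := by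
  classical
  choose C hC hgap using fun n : ℕ => gap_mat K p hp P hP hpP m B n hm
  refine ⟨(∑ n ∈ Finset.range (D + 1), C n) * (D + 1), by
    have : 0 < ∑ n ∈ Finset.range (D + 1), C n :=
      Finset.sum_pos (fun n _ => hC n) ⟨0, by simp⟩
    positivity, ?_⟩
  rintro e he x hx h0 hroot ⟨k, k', _, _, _, _, _, _, φ, hgal, hB, hram, hdeg⟩
  let _ : Algebra k ℂ := φ.toAlgebra
  have hxk : IsIntegral k x := (hx.tower_top : IsIntegral ℚ x).tower_top
  -- the degree
  have hd : (minpoly k x).natDegree ≤ D := by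
    refine le_trans ?_ hdeg
    have hxF : IsIntegral φ.fieldRange x := (hx.tower_top : IsIntegral ℚ x).tower_top
    let ψ : k ≃+* φ.fieldRange := RingEquiv.ofBijective φ.rangeRestrictField
      φ.rangeRestrictField_bijective
    have h1 : ((minpoly φ.fieldRange x).map (ψ.symm : φ.fieldRange →+* k)).natDegree =
        (minpoly φ.fieldRange x).natDegree := (minpoly.monic hxF).natDegree_map _
    rw [← h1]
    apply natDegree_le_natDegree
    apply minpoly.min k x ((minpoly.monic hxF).map _)
    rw [aeval_def, eval₂_map]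
    have h2 : (algebraMap k ℂ).comp (ψ.symm : φ.fieldRange →+* k) =
        algebraMap φ.fieldRange ℂ := by
      ext z
      obtain ⟨w, rfl⟩ := ψ.surjective z
      show φ (ψ.symm (ψ w)) = _
      rw [ψ.symm_apply_apply]
      rfl
    rw [h2]
    exact minpoly.aeval _ _
  -- the field
  set L := IntermediateField.adjoin k {x} with hL
  have hfkL : FiniteDimensional k L := IntermediateField.adjoin.finiteDimensional hxk
  have hfL : FiniteDimensional ℚ L := Module.Finite.trans k L
  have hLn : NumberField L := ⟨⟩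
  let y : L := IntermediateField.AdjoinSimple.gen k x
  have hmin : minpoly k y = minpoly k x := IntermediateField.minpoly_gen k x
  have hyint : IsIntegral ℤ y := by
    have : IsIntegral ℤ (algebraMap L ℂ y) := hx
    exact (isIntegral_algebraMap_iff (algebraMap L ℂ).injective).mp this
  have htop : IntermediateField.adjoin k {y} = ⊤ := by
    rw [Field.primitive_element_iff_minpoly_natDegree_eq, hmin]
    exact (IntermediateField.adjoin.finrank hxk).symm
  obtain ⟨n, hn, A, hA⟩ : ∃ n : ℕ, n = (minpoly k y).natDegree ∧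
      ∃ A : Matrix (Fin n) (Fin n) (𝓞 k),
        ∀ σ : k →+* ℂ, A.charpoly.map (emb σ) = (minpoly k y).map σ :=
    ⟨_, rfl, exists_mat (k := k) y hyint⟩
  have hfr : finrank k L = n := by
    rw [hn, hmin]
    exact IntermediateField.adjoin.finrank hxk
  have hnD : n ≤ D := by
    rw [hn, hmin]
    exact hd
  have h1 := hgap n k k' e he hB hram A φ x (by
    rw [hA, hmin, IsRoot, eval_map]
    exact minpoly.aeval k x) h0 hroot
  have h2 : ∑ σ : k →+* ℂ, Real.log (MA A σ) = ∑ τ : L →+* ℂ, Real.log (max 1 ‖τ y‖) := by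
    rw [← sum_mahler y htop]
    refine Finset.sum_congr rfl fun σ _ => ?_
    unfold MA
    rw [hA]
  have h3 := sum_emb hx L y (algebraMap L ℂ) rfl
  rw [h2] at h1
  set T := ∑ τ : L →+* ℂ, Real.log (max 1 ‖τ y‖) with hT
  have htow : (finrank ℚ L : ℝ) = finrank ℚ k * n := by
    rw [← hfr]
    exact_mod_cast (Module.finrank_mul_finrank ℚ k L).symm
  rw [htow] at h3
  have hk0 : (0 : ℝ) < finrank ℚ k := by exact_mod_cast (finrank_pos : 0 < finrank ℚ k)
  have hdeg0 : (0 : ℝ) ≤ (minpoly ℤ x).natDegree := Nat.cast_nonneg _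
  have hM : 0 ≤ Real.log (MM x) := by
    rw [Pool.Agent.TH53.UG.MM_prod hx]
    exact Real.log_nonneg (Finset.prod_induction _ (fun y => (1 : ℝ) ≤ y)
      (fun a b => one_le_mul_of_one_le_of_one_le) le_rfl (fun a _ => le_max_left _ _))
  have h4 : (finrank ℚ k : ℝ) * (minpoly ℤ x).natDegree ≤
      finrank ℚ k * (C n * e * (n * Real.log (MM x))) := by
    calc (finrank ℚ k : ℝ) * (minpoly ℤ x).natDegree
        ≤ (C n * e * T) * (minpoly ℤ x).natDegree := mul_le_mul_of_nonneg_right h1 hdeg0
      _ = C n * e * ((minpoly ℤ x).natDegree * T) := by ring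
      _ = _ := by
        rw [h3]
        ring
  have h5 := le_of_mul_le_mul_left h4 hk0
  refine h5.trans ?_
  have hCn : C n ≤ ∑ n ∈ Finset.range (D + 1), C n :=
    Finset.single_le_sum (fun i _ => (hC i).le) (Finset.mem_range.mpr (by omega))
  have hnR : (n : ℝ) ≤ D + 1 := by
    have : (n : ℝ) ≤ D := by exact_mod_cast hnD
    linarith
  have heR : (0 : ℝ) < e := by exact_mod_cast he
  have hCn0 := (hC n).le
  calc C n * e * (n * Real.log (MM x)) = (C n * n) * (e * Real.log (MM x)) := by ring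
    _ ≤ ((∑ n ∈ Finset.range (D + 1), C n) * (D + 1)) * (e * Real.log (MM x)) := by
        apply mul_le_mul_of_nonneg_right _ (by positivity)
        exact mul_le_mul hCn hnR (Nat.cast_nonneg _) (hCn0.trans hCn)
    _ = _ := by ring

end Pool.Agent.X186.MK
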