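import Pool.Agent.X186.MK.D
import Pool.Agent.X186.MJ.U

/-!
# Growth gaps for eigenvalues of bounded degree over nearly abelian fields
-/

set_option autoImplicit false

open Polynomial Finset Module NumberField
open scoped TensorProduct commutatorElement

namespace Pool.Agent.X186.MK

open Pool.Agent.TH53.UG Pool.Agent.W963.GE

universe u

/-- numerical bound -/
lemma base_low {M : ℝ} (hM : 0 < M) {δ : ℝ} (h0 : 0 < δ) (h1 : δ ≤ 1 / 2)
    (h : δ ≤ Real.log M) : δ / 3 ≤ Real.log (base M) := by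
  refine base_exp hM ?_ h0.le (by linarith)
  have h2 : 1 / M ^ 2 ≤ Real.exp (-(2 * δ)) := by
    have h3 : 1 / M ^ 2 = Real.exp (-(2 * Real.log M)) := by
      rw [Real.exp_neg, two_mul, Real.exp_add, Real.exp_log hM, one_div, sq]
    rw [h3]
    exact Real.exp_le_exp.2 (by linarith)
  have h4 : Real.exp (-(2 * δ)) ≤ 1 - δ := by
    have h7 : 0 < 1 - δ := by linarith
    rw [Real.exp_neg, inv_le_comm₀ (Real.exp_pos _) h7]
    have h8 := Real.quadratic_le_exp_of_nonneg (show 0 ≤ 2 * δ by linarith)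
    refine le_trans ?_ h8
    rw [inv_le_iff_one_le_mul₀ h7]
    nlinarith [pow_nonneg h0.le 3, mul_nonneg h0.le h0.le]
  linarith

/-- **The growth gap from a lower bound for Mahler measures.** -/
theorem gap_low {k d : ℕ} (hk : 1 ≤ k) {G : Type u} [Group G] (S : Set G)
    (hfin : S.Finite) (hgen : Subgroup.closure S = ⊤) (H : Subgroup G) (hH0 : H.index ≠ 0)
    (hHd : H.index ≤ d)
    (hnil : Group.IsNilpotent (gam H k) ∨ ¬ Group.IsVirtuallyNilpotent (H ⧸ ⁅gam H k, gam H k⁆))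
    (δ : ℝ) (hδ0 : 0 < δ) (hδ1 : δ ≤ 1 / 2)
    (hlow : ∀ (t : H) (z : ℂ), Module.End.HasEigenvalue
      (LinearMap.baseChange ℂ (Pool.Agent.TH53.UG.act (gam H k) t) :
        Module.End ℂ (ℂ ⊗[ℤ] (Additive (Abelianization (gam H k))))) z →
      z ≠ 0 → IsIntegral ℤ z → IsIntegral ℤ z⁻¹ → (∀ m : ℕ, 0 < m → z ^ m ≠ 1) →
      ∃ w : ℂ, aeval w (minpoly ℤ z) = 0 ∧
        (IsIntegral ℤ w → w ≠ 0 → (∀ m : ℕ, 0 < m → w ^ m ≠ 1) → δ ≤ Real.log (MM w))) :
    Group.IsVirtuallyNilpotent G ∨ δ / 3 / (2 ^ (k + 1) * (2 * d - 1)) ≤ H746UG.rho S := by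
  have hc : δ / 3 ≤ Real.log 2 := by
    have := Real.log_two_gt_d9
    linarith
  refine gap_general hk S hfin hgen H hH0 hHd hnil hc ?_
  intro hMf t b x hx0 hx hp
  have hxi : IsIntegral ℤ x := integral_of_root _ b hp
  by_cases hi : IsIntegral ℤ x⁻¹
  · have heig := eig_of_root (Pool.Agent.TH53.UG.act (gam H k) t) b hp (minpoly.aeval ℤ x)
    obtain ⟨w, hw, hlw⟩ := hlow t x heig hx0 hxi hi hx
    -- the conjugate
    have hwi : IsIntegral ℤ w := ⟨minpoly ℤ x, minpoly.monic hxi, hw⟩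
    have hmin : minpoly ℤ w = minpoly ℤ x := by
      have h3 : minpoly ℤ w ∣ minpoly ℤ x := minpoly.isIntegrallyClosed_dvd hwi hw
      exact eq_of_monic_of_associated (minpoly.monic hwi) (minpoly.monic hxi)
        ((minpoly.irreducible hwi).associated_of_dvd (minpoly.irreducible hxi) h3)
    have hw0 : w ≠ 0 := by
      intro hw0
      have h3 : minpoly ℤ w ∣ X := minpoly.isIntegrallyClosed_dvd hwi (by rw [aeval_X, hw0])
      rw [hmin] at h3
      obtain ⟨q, hq⟩ := h3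
      have h4 := congrArg (aeval x) hq
      rw [map_mul, minpoly.aeval, zero_mul, aeval_X] at h4
      exact hx0 h4
    have hwr : ∀ m : ℕ, 0 < m → w ^ m ≠ 1 := by
      intro m hm h
      apply hx m hm
      have h3 : minpoly ℤ w ∣ X ^ m - 1 := by
        apply minpoly.isIntegrallyClosed_dvd hwi
        simp [h]
      rw [hmin] at h3
      obtain ⟨q, hq⟩ := h3
      have h4 := congrArg (aeval x) hq
      rw [map_mul, minpoly.aeval, zero_mul, map_sub, map_pow, aeval_X, map_one] at h4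
      exact sub_eq_zero.mp h4
    have h3 := hlw hwi hw0 hwr
    have hMM : MM w = MM x := by unfold MM; rw [hmin]
    rw [hMM] at h3
    have hM : 0 < MM x := zero_lt_one.trans_le (MM_ge x hxi)
    exact (base_low hM hδ0 hδ1 h3).trans (eta_ge x hx0 hxi)
  · rw [H746UG.eta_eq_log_two x hx0 (fun h => hi h.2)]
    exact hc

/-- **The growth gap over nearly abelian fields.** -/
theorem gap_near (K : Type) [Field K] [NumberField K] (p : ℕ) (hp : p.Prime) (P : Ideal (𝓞 K))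
    (hP : P.IsPrime) (hpP : (p : 𝓞 K) ∈ P) (m B D : ℕ) (hm : 1 ≤ m) :
    ∃ c : ℝ, 0 < c ∧ ∀ (e : ℕ), 0 < e → ∀ {k d : ℕ} (_ : 1 ≤ k) {G : Type u} [Group G] (S : Set G)
    (_ : S.Finite) (_ : Subgroup.closure S = ⊤) (H : Subgroup G) (_ : H.index ≠ 0)
    (_ : H.index ≤ d)
    (_ : Group.IsNilpotent (gam H k) ∨ ¬ Group.IsVirtuallyNilpotent (H ⧸ ⁅gam H k, gam H k⁆))
    (_ : ∀ (t : H) (z : ℂ), Module.End.HasEigenvalue
      (LinearMap.baseChange ℂ (Pool.Agent.TH53.UG.act (gam H k) t) :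
        Module.End ℂ (ℂ ⊗[ℤ] (Additive (Abelianization (gam H k))))) z →
      z ≠ 0 → IsIntegral ℤ z → IsIntegral ℤ z⁻¹ → (∀ m : ℕ, 0 < m → z ^ m ≠ 1) →
      ∃ w : ℂ, aeval w (minpoly ℤ z) = 0 ∧ NearAb K P m B e D w),
    Group.IsVirtuallyNilpotent G ∨ c / (e * 2 ^ (k + 1) * (2 * d - 1)) ≤ H746UG.rho S := by
  obtain ⟨C, hC, hmah⟩ := mahler_near K p hp P hP hpP m B D hm
  refine ⟨1 / (C + 2) / 3, by positivity, ?_⟩
  intro e he k d hk G _ S hfin hgen H hH0 hHd hnil hcyc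
  have heR : (1 : ℝ) ≤ e := by exact_mod_cast he
  set δ : ℝ := 1 / ((C + 2) * e) with hδ
  have hδ0 : 0 < δ := by positivity
  have hδ1 : δ ≤ 1 / 2 := by
    rw [hδ]
    apply one_div_le_one_div_of_le (by norm_num)
    nlinarith
  have e1 : 1 / (C + 2) / 3 / (e * 2 ^ (k + 1) * (2 * d - 1)) =
      δ / 3 / (2 ^ (k + 1) * (2 * d - 1)) := by
    rw [hδ, div_div, div_div, div_div, div_div]
    congr 1
    ring
  rw [e1]
  refine gap_low hk S hfin hgen H hH0 hHd hnil δ hδ0 hδ1 ?_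
  intro t z hz h0 h1 h2 h3
  obtain ⟨w, hw, hnear⟩ := hcyc t z hz h0 h1 h2 h3
  refine ⟨w, hw, ?_⟩
  intro hwi hw0 hwr
  have h4 := hmah e he w hwi hw0 hwr hnear
  have h5 : (1 : ℝ) ≤ (minpoly ℤ w).natDegree := by
    exact_mod_cast minpoly.natDegree_pos hwi
  have h6 : 0 ≤ Real.log (MM w) := Real.log_nonneg (MM_ge w hwi)
  rw [hδ, div_le_iff₀ (by positivity)]
  have h7 : 0 ≤ 2 * e * Real.log (MM w) := by positivity
  nlinarith

end Pool.Agent.X186.MK
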