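import Pool.Agent.X186.MK.A
import Pool.Agent.X186.MJ.M

/-!
# Canonical heights of characteristic polynomials and Mahler measures
-/

set_option autoImplicit false
set_option linter.unusedSectionVars false

namespace Pool.Agent.X186.MK

open NumberField Module Filter Topology Polynomial
open Pool.Agent.W238.Leh (act act_smul)
open Pool.Agent.H225R3.Marg
open Pool.Agent.H627.LP (Wnd InsepN Conj)
open Pool.Agent.H420R3 (mi v_le_one v_lt_one_iff)
open Pool.Agent.TH285.MG

/-- the characteristic polynomial of a power -/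
theorem charpoly_pow {n : ℕ} (A : Matrix (Fin n) (Fin n) ℂ) (e : ℕ) (he : 0 < e) :
    (A ^ e).charpoly = (A.charpoly.roots.map fun r => X - C (r ^ e)).prod := by
  apply Polynomial.funext
  intro t
  have hd : A.charpoly.natDegree = n := by
    rw [Matrix.charpoly_natDegree_eq_dim, Fintype.card_fin]
  have hdeg : (X ^ e - C t : ℂ[X]).natDegree = e := natDegree_X_pow_sub_C
  have h1 := det_aeval A (X ^ e - C t) (IsAlgClosed.splits _) (monic_X_pow_sub_C t he.ne')
  have h2 := resultant_eq_prod_eval A.charpoly (X ^ e - C t) e hdeg.le (IsAlgClosed.splits _)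
  rw [hd, A.charpoly_monic.leadingCoeff, one_pow, one_mul] at h2
  rw [hdeg, h2, map_sub, map_pow, aeval_X, aeval_C] at h1
  have h3 : (A.charpoly.roots.map (X ^ e - C t : ℂ[X]).eval) =
      A.charpoly.roots.map fun r => (-1) * (t - r ^ e) := by
    apply Multiset.map_congr rfl
    intro r _
    rw [eval_sub, eval_pow, eval_X, eval_C]
    ring
  have hcard : A.charpoly.roots.card = n := by
    rw [← (IsAlgClosed.splits A.charpoly).natDegree_eq_card_roots, hd]
  rw [h3, Multiset.prod_map_mul, Multiset.map_const', Multiset.prod_replicate, hcard] at h1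
  rw [eval_multiset_prod, Multiset.map_map, Matrix.eval_charpoly, ← neg_sub, Matrix.det_neg,
    Fintype.card_fin]
  change (-1) ^ n * (A ^ e - (algebraMap ℂ (Matrix (Fin n) (Fin n) ℂ)) t).det = _
  rw [h1, ← mul_assoc, ← mul_pow]
  simp

/-- the Mahler measure of the characteristic polynomial of a power -/
theorem mahler_pow {n : ℕ} (A : Matrix (Fin n) (Fin n) ℂ) (e : ℕ) (he : 0 < e) :
    (A ^ e).charpoly.mahlerMeasure = A.charpoly.mahlerMeasure ^ e := by
  have h0 : (A ^ e).charpoly.roots = A.charpoly.roots.map fun r => r ^ e := by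
    rw [charpoly_pow A e he]
    have : (A.charpoly.roots.map fun r => X - C (r ^ e)) =
        (A.charpoly.roots.map fun r => r ^ e).map fun r => X - C r := by
      rw [Multiset.map_map]
      rfl
    rw [this, roots_multiset_prod_X_sub_C]
  rw [mahlerMeasure_eq_leadingCoeff_mul_prod_roots, mahlerMeasure_eq_leadingCoeff_mul_prod_roots,
    (A ^ e).charpoly_monic.leadingCoeff, A.charpoly_monic.leadingCoeff, norm_one, one_mul, one_mul,
    h0, Multiset.map_map, ← Multiset.prod_map_pow]
  congr 1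
  apply Multiset.map_congr rfl
  intro r _
  show max 1 ‖r ^ e‖ = (max 1 ‖r‖) ^ e
  rw [norm_pow]
  rcases le_total ‖r‖ 1 with h | h
  · rw [max_eq_left h, max_eq_left (pow_le_one₀ (norm_nonneg _) h), one_pow]
  · rw [max_eq_right h, max_eq_right (one_le_pow₀ h)]

variable {K : Type} [Field K] [NumberField K] {L : Type} [Field L] [NumberField L] [Algebra K L]

/-- the Mahler measure of the characteristic polynomial at an embedding -/
noncomputable def MA {n : ℕ} (A : Matrix (Fin n) (Fin n) (𝓞 L)) (σ : L →+* ℂ) : ℝ :=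
  (A.charpoly.map (emb σ)).mahlerMeasure

theorem one_le_MA {n : ℕ} (A : Matrix (Fin n) (Fin n) (𝓞 L)) (σ : L →+* ℂ) : 1 ≤ MA A σ := by
  apply one_le_mahlerMeasure_of_one_le_norm_leadingCoeff
  rw [(A.charpoly_monic.map (emb σ)).leadingCoeff, norm_one]

/-- coefficients at an embedding -/
theorem coeff_bound' {n : ℕ} (A : Matrix (Fin n) (Fin n) (𝓞 L)) (σ : L →+* ℂ) (e : ℕ)
    (he : 0 < e) (i : Fin (n + 1)) : ‖σ (xv (A ^ e) i)‖ ≤ 2 ^ n * MA A σ ^ e := by
  have h1 : σ (xv (A ^ e) i) = (((A ^ e).charpoly.map (emb σ)).coeff i) := by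
    rw [Polynomial.coeff_map]
    rfl
  have h2 : ((A ^ e).charpoly.map (emb σ)).mahlerMeasure = MA A σ ^ e := by
    rw [← charpoly_emb, map_pow, mahler_pow _ e he, charpoly_emb]
    rfl
  rw [h1]
  refine (norm_coeff_le_choose_mul_mahlerMeasure _ _).trans ?_
  rw [h2]
  have h3 : (((A ^ e).charpoly.map (emb σ)).natDegree.choose i : ℝ) ≤ 2 ^ n := by
    rw [((A ^ e).charpoly_monic).natDegree_map, Matrix.charpoly_natDegree_eq_dim, Fintype.card_fin]
    exact_mod_cast Nat.choose_le_two_pow n i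
  have h4 := one_le_MA A σ
  exact mul_le_mul_of_nonneg_right h3 (by positivity)

/-- the height of the characteristic polynomial of a power -/
theorem mulHeight_le {n : ℕ} (A : Matrix (Fin n) (Fin n) (𝓞 L)) (e : ℕ) (he : 0 < e) :
    Height.logHeight (xv (A ^ e)) ≤
      finrank ℚ L * (n * Real.log 2) + 2 * e * ∑ σ : L →+* ℂ, Real.log (MA A σ) := by
  classical
  have hM1 := one_le_MA A
  have hM0 : ∀ σ : L →+* ℂ, 0 < MA A σ := fun σ => lt_of_lt_of_le one_pos (hM1 σ)
  have key : Height.mulHeight (xv (A ^ e)) ≤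
      ((2 : ℝ) ^ n) ^ (finrank ℚ L) * ∏ σ : L →+* ℂ, (MA A σ ^ e) ^ 2 := by
    rw [NumberField.mulHeight_eq (xv_ne _)]
    have hfin : (∏ᶠ v : FinitePlace L, ⨆ i, v (xv (A ^ e) i)) = 1 := by
      apply finprod_eq_one_of_forall_eq_one
      intro v
      apply le_antisymm
      · exact ciSup_le fun i => v_le_one v _
      · have h1 : v (xv (A ^ e) (Fin.last n)) ≤ ⨆ i, v (xv (A ^ e) i) :=
          le_ciSup (f := fun i => v (xv (A ^ e) i)) (Set.finite_range _).bddAbove (Fin.last n)
        rwa [xv_last, map_one] at h1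
    rw [hfin, mul_one]
    have hv : ∀ v : InfinitePlace L, (⨆ i, v (xv (A ^ e) i)) ≤ 2 ^ n * MA A v.embedding ^ e := by
      intro v
      refine ciSup_le fun i => ?_
      rw [← InfinitePlace.norm_embedding_eq]
      exact coeff_bound' A v.embedding e he i
    have hnn : ∀ v : InfinitePlace L, 0 ≤ ⨆ i, v (xv (A ^ e) i) :=
      fun v => Real.iSup_nonneg fun i => apply_nonneg _ _
    calc (∏ v : InfinitePlace L, (⨆ i, v (xv (A ^ e) i)) ^ v.mult)
        ≤ ∏ v : InfinitePlace L, (2 ^ n * MA A v.embedding ^ e) ^ v.mult :=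
          Finset.prod_le_prod (fun v _ => pow_nonneg (hnn v) _)
            fun v _ => pow_le_pow_left₀ (hnn v) (hv v) _
      _ = (∏ v : InfinitePlace L, ((2 : ℝ) ^ n) ^ v.mult) *
            ∏ v : InfinitePlace L, (MA A v.embedding ^ e) ^ v.mult := by
          rw [← Finset.prod_mul_distrib]
          exact Finset.prod_congr rfl fun v _ => mul_pow _ _ _
      _ = ((2 : ℝ) ^ n) ^ (finrank ℚ L) *
            ∏ v : InfinitePlace L, (MA A v.embedding ^ e) ^ v.mult := by
          rw [Finset.prod_pow_eq_pow_sum, InfinitePlace.sum_mult_eq]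
      _ ≤ ((2 : ℝ) ^ n) ^ (finrank ℚ L) * ∏ σ : L →+* ℂ, (MA A σ ^ e) ^ 2 := by
          refine mul_le_mul_of_nonneg_left ?_ (by positivity)
          calc (∏ v : InfinitePlace L, (MA A v.embedding ^ e) ^ v.mult)
              ≤ ∏ v : InfinitePlace L, (MA A v.embedding ^ e) ^ 2 := by
                refine Finset.prod_le_prod (fun v _ => by
                  have := hM0 v.embedding
                  positivity) fun v _ => ?_
                have hm : v.mult ≤ 2 := by
                  unfold InfinitePlace.mult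
                  split_ifs <;> omega
                exact pow_le_pow_right₀ (one_le_pow₀ (hM1 _)) hm
            _ = ∏ σ ∈ (Finset.univ.image fun v : InfinitePlace L => v.embedding),
                  (MA A σ ^ e) ^ 2 := by
                rw [Finset.prod_image fun a _ b _ h => InfinitePlace.embedding_injective L h]
            _ ≤ ∏ σ : L →+* ℂ, (MA A σ ^ e) ^ 2 := by
                rw [← Finset.prod_sdiff (Finset.subset_univ
                  (Finset.univ.image fun v : InfinitePlace L => v.embedding))]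
                refine le_mul_of_one_le_left (Finset.prod_nonneg fun σ _ => by positivity) ?_
                exact Finset.prod_induction _ (fun y => (1 : ℝ) ≤ y)
                  (fun a b => one_le_mul_of_one_le_of_one_le) le_rfl
                  (fun σ _ => one_le_pow₀ (one_le_pow₀ (hM1 σ)))
  have hmh : 0 < Height.mulHeight (xv (A ^ e)) := Height.mulHeight_pos _
  rw [Height.logHeight]
  refine (Real.log_le_log hmh key).trans (le_of_eq ?_)
  rw [Real.log_mul (by positivity) (Finset.prod_pos fun σ _ => by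
      have := hM0 σ
      positivity).ne', Real.log_pow, Real.log_pow,
    Real.log_prod (fun σ _ => by
      have := hM0 σ
      positivity), Finset.mul_sum]
  congr 1
  refine Finset.sum_congr rfl fun σ _ => ?_
  rw [Real.log_pow, Real.log_pow]
  push_cast
  ring

/-- the upper bound for the canonical height -/
theorem height_upper' (p n : ℕ) (hp : p.Prime) (A : Matrix (Fin n) (Fin n) (𝓞 L)) (h : ℝ)
    (hlim : Tendsto (fun j : ℕ => Height.logHeight ((act (frK K p n))^[j] (xv A)) /
      ((finrank ℚ L : ℝ) * ((p ^ 1 : ℕ) : ℝ) ^ j)) atTop (𝓝 h)) :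
    h ≤ 2 * (∑ σ : L →+* ℂ, Real.log (MA A σ)) / finrank ℚ L := by
  set d : ℕ := finrank ℚ L with hd
  have hd0 : (0 : ℝ) < d := by
    have : 0 < finrank ℚ L := finrank_pos
    exact_mod_cast this
  have hp1 : (1 : ℝ) < p := by exact_mod_cast hp.one_lt
  set T0 : ℝ := ∑ σ : L →+* ℂ, Real.log (MA A σ) with hT0
  have hub : ∀ j : ℕ, Height.logHeight ((act (frK K p n))^[j] (xv A)) /
      ((d : ℝ) * ((p ^ 1 : ℕ) : ℝ) ^ j) ≤
      n * Real.log 2 * ((p : ℝ)⁻¹) ^ j + 2 * T0 / d := by
    intro j
    obtain ⟨u, hu, h1⟩ := act_iter_xv (K := K) p hp.pos A j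
    rw [h1, Height.logHeight_smul_eq_logHeight _ hu]
    have h3 := mulHeight_le A (p ^ j) (Nat.pow_pos hp.pos)
    push_cast at h3
    have hpj' : (0 : ℝ) < (p : ℝ) ^ j := by positivity
    rw [pow_one, div_le_iff₀ (by positivity)]
    have h5 : (n * Real.log 2 * ((p : ℝ)⁻¹) ^ j + 2 * T0 / d) * (d * (p : ℝ) ^ j) =
        d * (n * Real.log 2) + 2 * (p : ℝ) ^ j * T0 := by
      rw [inv_pow]
      field_simp
    rw [h5]
    exact h3
  have hlim2 : Tendsto (fun j : ℕ => (n : ℝ) * Real.log 2 * ((p : ℝ)⁻¹) ^ j + 2 * T0 / d) atTop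
      (𝓝 ((n : ℝ) * Real.log 2 * 0 + 2 * T0 / d)) := by
    refine Tendsto.add_const _ (Tendsto.const_mul _ ?_)
    exact tendsto_pow_atTop_nhds_zero_of_lt_one (by positivity) (inv_lt_one_of_one_lt₀ hp1)
  have hle := le_of_tendsto_of_tendsto' hlim hlim2 hub
  rwa [mul_zero, zero_add] at hle

/-- points of matrices with an eigenvalue that is not a root of unity are wandering -/
theorem xv_wnd' {n : ℕ} (p : ℕ) (hp : 2 ≤ p) (A : Matrix (Fin n) (Fin n) (𝓞 L)) (σ : L →+* ℂ)
    (l : ℂ) (hl : (A.charpoly.map (emb σ)).IsRoot l) (hl0 : l ≠ 0)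
    (hroot : ∀ N : ℕ, 0 < N → l ^ N ≠ 1) : Wnd (frK K p n) (xv A) := by
  rintro ⟨a, b, hab, c, hc, h⟩
  obtain ⟨u, hu, h1⟩ := act_iter_xv (K := K) p (by omega) A a
  obtain ⟨w, hw, h2⟩ := act_iter_xv (K := K) p (by omega) A b
  rw [h1, h2, smul_smul] at h
  have h3 : xv (A ^ p ^ b) = (w⁻¹ * (c * u)) • xv (A ^ p ^ a) := by
    rw [mul_smul, ← h, smul_smul, inv_mul_cancel₀ hw, one_smul]
  have h4 := charpoly_eq h3
  -- the characteristic polynomial of a power of `A` is invariant
  obtain ⟨B, Q, e, hB, hQ, he, hBe⟩ : ∃ (B : Matrix (Fin n) (Fin n) (𝓞 L)) (Q e : ℕ),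
      (B ^ Q).charpoly = B.charpoly ∧ 2 ≤ Q ∧ 0 < e ∧ B = A ^ e := by
    rcases lt_or_gt_of_ne hab with hlt | hlt
    · refine ⟨A ^ p ^ a, p ^ (b - a), p ^ a, ?_, ?_, by positivity, rfl⟩
      · rw [← pow_mul, ← pow_add, Nat.add_sub_cancel' hlt.le]
        exact h4
      · calc 2 ≤ p := hp
          _ = p ^ 1 := (pow_one p).symm
          _ ≤ p ^ (b - a) := Nat.pow_le_pow_right (by omega) (by omega)
    · refine ⟨A ^ p ^ b, p ^ (a - b), p ^ b, ?_, ?_, by positivity, rfl⟩
      · rw [← pow_mul, ← pow_add, Nat.add_sub_cancel' hlt.le]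
        exact h4.symm
      · calc 2 ≤ p := hp
          _ = p ^ 1 := (pow_one p).symm
          _ ≤ p ^ (a - b) := Nat.pow_le_pow_right (by omega) (by omega)
  have hstep : ∀ z : ℂ, (B.charpoly.map (emb σ)).IsRoot z →
      (B.charpoly.map (emb σ)).IsRoot (z ^ Q) := by
    intro z hz
    rw [← charpoly_emb] at hz
    have h5 := root_pow _ Q z hz
    rw [← map_pow, charpoly_emb, hB] at h5
    exact h5
  have hall : ∀ t : ℕ, (B.charpoly.map (emb σ)).IsRoot ((l ^ e) ^ Q ^ t) := by
    intro t
    induction t with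
    | zero =>
      rw [pow_zero, pow_one, hBe, ← charpoly_emb, map_pow]
      rw [← charpoly_emb] at hl
      exact root_pow _ e l hl
    | succ t ih =>
      rw [pow_succ, pow_mul]
      exact hstep _ ih
  have hne : B.charpoly.map (emb σ) ≠ 0 := (B.charpoly_monic.map _).ne_zero
  have hfin : (Set.range fun t : ℕ => (l ^ e) ^ Q ^ t).Finite := by
    refine ((B.charpoly.map (emb σ)).roots.toFinset.finite_toSet).subset ?_
    rintro _ ⟨t, rfl⟩
    rw [Finset.mem_coe, Multiset.mem_toFinset, Polynomial.mem_roots hne]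
    exact hall t
  have hninj : ¬ Function.Injective fun t : ℕ => (l ^ e) ^ Q ^ t := by
    intro hinj
    exact Set.infinite_range_of_injective hinj hfin
  rw [Function.Injective] at hninj
  push Not at hninj
  obtain ⟨s, t, hst, hne'⟩ := hninj
  have key : ∀ s t : ℕ, s < t → (l ^ e) ^ Q ^ s = (l ^ e) ^ Q ^ t → False := by
    intro s t hlt hst
    have h6 : Q ^ s < Q ^ t := Nat.pow_lt_pow_right (by omega) hlt
    have h7 : (l ^ e) ^ Q ^ s * (l ^ e) ^ (Q ^ t - Q ^ s) = (l ^ e) ^ Q ^ s * 1 := by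
      rw [← pow_add, Nat.add_sub_cancel' h6.le, mul_one]
      exact hst.symm
    have h8 := mul_left_cancel₀ (pow_ne_zero _ (pow_ne_zero _ hl0)) h7
    rw [← pow_mul] at h8
    exact hroot _ (Nat.mul_pos he (by omega)) h8
  rcases lt_or_gt_of_ne hne' with hlt | hlt
  · exact key s t hlt hst
  · exact key t s hlt hst.symm

end Pool.Agent.X186.MK
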