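import Pool.Agent.X186.MK.B

/-!
# Mahler measures of numbers of bounded degree over nearly abelian fields
-/

set_option autoImplicit false
set_option linter.unusedSectionVars false

namespace Pool.Agent.X186.MK

open NumberField Module Filter Topology Polynomial
open Pool.Agent.W238.Leh (act act_smul)
open Pool.Agent.H225R3.Marg
open Pool.Agent.H627.LP (Wnd InsepN Conj)
open Pool.Agent.H420R3 (mi v_le_one v_lt_one_iff)
open Pool.Agent.TH285.MG
open Pool.Agent.X186.MJ Pool.Agent.W963.GE

/-- **The gap for matrices.** -/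
theorem gap_mat (K : Type) [Field K] [NumberField K] (p : ℕ) (hp : p.Prime) (P : Ideal (𝓞 K))
    (hP : P.IsPrime) (hpP : (p : 𝓞 K) ∈ P) (m B n : ℕ) (hm : 1 ≤ m) :
    ∃ C : ℝ, 0 < C ∧ ∀ (k k' : Type) [Field k] [NumberField k] [Field k'] [NumberField k']
      [Algebra k k'] [Algebra K k'] [IsGalois K k'] (e : ℕ), 0 < e →
      (∀ σ : Gal(k'/K), (Set.range fun g : Gal(k'/K) => g * σ ^ m * g⁻¹).ncard ≤ B) →
      (∀ 𝔓 : Ideal (𝓞 k'), 𝔓.IsPrime → 𝔓.under (𝓞 K) = P → 𝔓.ramificationIdx (𝓞 K) ≤ e) →
      ∀ (A : Matrix (Fin n) (Fin n) (𝓞 k)) (φ : k →+* ℂ) (l : ℂ),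
      (A.charpoly.map (emb φ)).IsRoot l → l ≠ 0 → (∀ N : ℕ, 0 < N → l ^ N ≠ 1) →
      (finrank ℚ k : ℝ) ≤ C * e * ∑ σ : k →+* ℂ, Real.log (MA A σ) := by
  classical
  obtain ⟨v, hvP, hv⟩ := place_of_ideal K p hp P hP hpP
  obtain ⟨C, hC, hgal, -, -⟩ := Pool.Agent.H627.LP.final (N := n) (k := K) (K := K) hp
    (r := 1) le_rfl (frK K p n) 1 (by simp) (frK K p n) (fun i => by
      rw [pow_one]
      exact frK_hom p n i) (conj_one K p n) v hv (frK_insep v p hp hv n) hm B
  refine ⟨2 * C, by positivity, ?_⟩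
  intro k k' _ _ _ _ _ _ _ e he hB hram A φ l hl hl0 hroot
  -- the matrix over `k'`
  set f := algebraMap (𝓞 k) (𝓞 k') with hf
  set A' := f.mapMatrix A with hA'
  have hfd : FiniteDimensional k k' := Module.Finite.of_restrictScalars_finite ℚ k k'
  have hmap : ∀ τ : k' →+* ℂ, A'.charpoly.map (emb τ) =
      A.charpoly.map (emb (τ.comp (algebraMap k k'))) := by
    intro τ
    rw [← charpoly_emb, ← charpoly_emb, hA', emb_map]
  -- an extension of the embedding
  obtain ⟨⟨τ, hτ⟩⟩ : Nonempty {τ : k' →+* ℂ // τ.comp (algebraMap k k') = φ} := by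
    have h1 := natCard_ext k k' φ
    have h2 : 0 < Nat.card {τ : k' →+* ℂ // τ.comp (algebraMap k k') = φ} := by
      rw [h1]
      exact finrank_pos
    exact (Nat.card_pos_iff.mp h2).1
  obtain ⟨h, hlim, -, hlow⟩ := hgal k' hB (xv A') (xv_ne A')
    (xv_wnd' p hp.two_le A' τ l (by rw [hmap, hτ]; exact hl) hl0 hroot)
  have hlow' : 1 / (C * e) ≤ h := by
    refine hlow e fun 𝔓 h𝔓 h1 => hram 𝔓 h𝔓 ?_
    rw [h1, hvP, Ideal.under_def]
    exact Ideal.comap_id P
  -- the degrees
  have hkk' : (0 : ℝ) < finrank k k' := by exact_mod_cast (finrank_pos : 0 < finrank k k')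
  have hk0 : (0 : ℝ) < finrank ℚ k := by exact_mod_cast (finrank_pos : 0 < finrank ℚ k)
  have htow : (finrank ℚ k' : ℝ) = finrank ℚ k * finrank k k' := by
    exact_mod_cast (Module.finrank_mul_finrank ℚ k k').symm
  have heR : (0 : ℝ) < e := by exact_mod_cast he
  have hsum : ∑ τ : k' →+* ℂ, Real.log (MA A' τ) =
      finrank k k' * ∑ σ : k →+* ℂ, Real.log (MA A σ) := by
    rw [Finset.mul_sum, ← Finset.sum_fiberwise_of_maps_to (s := (Finset.univ : Finset (k' →+* ℂ)))
      (t := (Finset.univ : Finset (k →+* ℂ))) (g := fun σ => σ.comp (algebraMap k k'))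
      (fun _ _ => Finset.mem_univ _)]
    refine Finset.sum_congr rfl fun σ _ => ?_
    have h2 : ∀ τ ∈ (Finset.univ : Finset (k' →+* ℂ)).filter
        (fun τ => τ.comp (algebraMap k k') = σ), Real.log (MA A' τ) = Real.log (MA A σ) := by
      intro τ hτ
      unfold MA
      rw [hmap, (Finset.mem_filter.mp hτ).2]
    rw [Finset.sum_congr rfl h2, Finset.sum_const, nsmul_eq_mul]
    congr 1
    have h3 := natCard_ext k k' σ
    rw [Nat.card_eq_fintype_card, Fintype.card_subtype] at h3
    exact_mod_cast h3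
  have h1 := hlow'.trans (height_upper' (K := K) p n hp A' h hlim)
  rw [hsum, htow] at h1
  have h2 : 2 * (finrank k k' * ∑ σ : k →+* ℂ, Real.log (MA A σ)) /
      (finrank ℚ k * finrank k k' : ℝ) = 2 * (∑ σ : k →+* ℂ, Real.log (MA A σ)) / finrank ℚ k := by
    field_simp
  rw [h2, div_le_div_iff₀ (by positivity) hk0, one_mul] at h1
  linarith

open Classical in
/-- the zeros of the minimal polynomial at an embedding -/
lemma roots_emb {k L : Type} [Field k] [NumberField k] [Field L] [NumberField L] [Algebra k L]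
    (y : L) (hy : IntermediateField.adjoin k {y} = ⊤) (σ : k →+* ℂ) :
    ((minpoly k y).map σ).roots =
      ((Finset.univ : Finset (L →+* ℂ)).filter
        (fun τ : L →+* ℂ => τ.comp (algebraMap k L) = σ)).val.map (fun τ : L →+* ℂ => τ y) := by
  have hfd : FiniteDimensional k L := Module.Finite.of_restrictScalars_finite ℚ k L
  have hyi : IsIntegral k y := Algebra.IsIntegral.isIntegral y
  set T := (Finset.univ : Finset (L →+* ℂ)).filter (fun τ : L →+* ℂ => τ.comp (algebraMap k L) = σ) with hT
  have hinj : Set.InjOn (fun τ : L →+* ℂ => τ y) T := by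
    intro τ hτ τ' hτ' h
    have hτ1 := (Finset.mem_filter.mp (Finset.mem_coe.mp hτ)).2
    have hτ2 := (Finset.mem_filter.mp (Finset.mem_coe.mp hτ')).2
    let _ : Algebra k ℂ := σ.toAlgebra
    let a : L →ₐ[k] ℂ := { τ with commutes' := fun r => RingHom.congr_fun hτ1 r }
    let a' : L →ₐ[k] ℂ := { τ' with commutes' := fun r => RingHom.congr_fun hτ2 r }
    have h1 : a = a' := by
      have h2 : ∀ z ∈ (⊤ : IntermediateField k L), a z = a' z := by
        intro z hz
        rw [← hy] at hz
        have h3 : IntermediateField.adjoin k {y} ≤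
            (AlgHom.equalizer a a').toIntermediateField (fun z hz => by
              have hz' : a z = a' z := hz
              show a z⁻¹ = a' z⁻¹
              rw [map_inv₀, map_inv₀, hz']) := by
          rw [IntermediateField.adjoin_le_iff]
          intro w hw
          rw [Set.mem_singleton_iff] at hw
          subst hw
          exact h
        exact h3 hz
      exact AlgHom.ext fun z => h2 z IntermediateField.mem_top
    ext z
    exact congrArg (fun b : L →ₐ[k] ℂ => b z) h1
  have hcardT : T.card = finrank k L := by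
    have h3 := natCard_ext k L σ
    rw [Nat.card_eq_fintype_card, Fintype.card_subtype] at h3
    exact h3
  have hdeg : finrank k L = (minpoly k y).natDegree := by
    rw [← IntermediateField.finrank_top' (F := k) (E := L), ← hy,
      IntermediateField.adjoin.finrank hyi]
  have hmap0 : ((minpoly k y).map σ) ≠ 0 := ((minpoly.monic hyi).map σ).ne_zero
  have hrc : ((minpoly k y).map σ).roots.card = T.card := by
    rw [← (IsAlgClosed.splits ((minpoly k y).map σ)).natDegree_eq_card_roots,
      (minpoly.monic hyi).natDegree_map, ← hdeg, hcardT]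
  have himg : (T.image fun τ : L →+* ℂ => τ y).val = T.val.map (fun τ : L →+* ℂ => τ y) :=
    Finset.image_val_of_injOn hinj
  rw [← himg]
  symm
  apply Multiset.eq_of_le_of_card_le
  · rw [Multiset.le_iff_subset (T.image fun τ : L →+* ℂ => τ y).nodup]
    intro z hz
    obtain ⟨τ, hτ, rfl⟩ := Finset.mem_image.mp (Finset.mem_def.mpr hz)
    rw [mem_roots hmap0, IsRoot, eval_map, ← (Finset.mem_filter.mp hτ).2]
    have h1 : eval₂ (algebraMap k L) y (minpoly k y) = 0 := minpoly.aeval k y
    have h2 := congrArg τ h1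
    rwa [hom_eval₂, map_zero] at h2
  · rw [hrc]
    exact (Finset.card_image_of_injOn hinj).ge

/-- the sum of the logarithms of the Mahler measures at the embeddings -/
lemma sum_mahler {k L : Type} [Field k] [NumberField k] [Field L] [NumberField L] [Algebra k L]
    (y : L) (hy : IntermediateField.adjoin k {y} = ⊤) :
    ∑ σ : k →+* ℂ, Real.log ((minpoly k y).map σ).mahlerMeasure =
      ∑ τ : L →+* ℂ, Real.log (max 1 ‖τ y‖) := by
  classical
  have hfd : FiniteDimensional k L := Module.Finite.of_restrictScalars_finite ℚ k L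
  have hyi : IsIntegral k y := Algebra.IsIntegral.isIntegral y
  rw [← Finset.sum_fiberwise_of_maps_to (s := (Finset.univ : Finset (L →+* ℂ)))
    (t := (Finset.univ : Finset (k →+* ℂ))) (g := fun σ => σ.comp (algebraMap k L))
    (fun _ _ => Finset.mem_univ _)]
  refine Finset.sum_congr rfl fun σ _ => ?_
  rw [mahlerMeasure_eq_leadingCoeff_mul_prod_roots, ((minpoly.monic hyi).map σ).leadingCoeff,
    norm_one, one_mul, roots_emb y hy σ, Multiset.map_map]
  change Real.log (∏ τ ∈ (Finset.univ : Finset (L →+* ℂ)).filter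
        (fun τ : L →+* ℂ => τ.comp (algebraMap k L) = σ), max 1 ‖τ y‖) = _
  rw [Real.log_prod (fun τ _ => (lt_of_lt_of_le one_pos (le_max_left _ _)).ne')]

/-- the sum over all embeddings of a larger field -/
lemma sum_emb {x : ℂ} (hx : IsIntegral ℤ x) (N : Type) [Field N] [NumberField N] (y : N)
    (φ : N →+* ℂ) (hφ : φ y = x) :
    ((minpoly ℤ x).natDegree : ℝ) * ∑ τ : N →+* ℂ, Real.log (max 1 ‖τ y‖) =
      finrank ℚ N * Real.log (MM x) := by
  classical
  have hxQ : IsIntegral ℚ x := hx.tower_top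
  have hyQ : IsIntegral ℚ y := Algebra.IsIntegral.isIntegral y
  have hmin : minpoly ℚ y = minpoly ℚ x := by
    rw [← hφ]
    exact (minpoly.algHom_eq φ.toRatAlgHom φ.injective y).symm
  set L0 := IntermediateField.adjoin ℚ {y} with hL0
  have hfin0 : FiniteDimensional ℚ L0 := IntermediateField.adjoin.finiteDimensional hyQ
  have hL0n : NumberField L0 := ⟨⟩
  let x0 : L0 := IntermediateField.AdjoinSimple.gen ℚ y
  have h1 : Real.log (MM x) = ∑ τ : L0 →+* ℂ, Real.log (max 1 ‖τ x0‖) := by
    refine MM_emb hx L0 x0 (φ.comp (algebraMap L0 N)) hφ ?_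
    rw [Field.primitive_element_iff_minpoly_natDegree_eq]
    exact (congrArg natDegree (IntermediateField.minpoly_gen ℚ y)).trans
      (IntermediateField.adjoin.finrank hyQ).symm
  have hdegx : finrank ℚ L0 = (minpoly ℤ x).natDegree := by
    rw [hL0, IntermediateField.adjoin.finrank hyQ, hmin,
      minpoly.isIntegrallyClosed_eq_field_fractions' ℚ hx]
    exact (minpoly.monic hx).natDegree_map _
  have htow : (finrank ℚ N : ℝ) = (minpoly ℤ x).natDegree * finrank L0 N := by
    rw [← hdegx]
    exact_mod_cast (Module.finrank_mul_finrank ℚ L0 N).symm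
  have hsum : ∑ τ : N →+* ℂ, Real.log (max 1 ‖τ y‖) = finrank L0 N * Real.log (MM x) := by
    rw [h1, Finset.mul_sum]
    rw [← Finset.sum_fiberwise_of_maps_to (s := (Finset.univ : Finset (N →+* ℂ)))
      (t := (Finset.univ : Finset (L0 →+* ℂ))) (g := fun σ => σ.comp (algebraMap L0 N))
      (fun _ _ => Finset.mem_univ _)]
    refine Finset.sum_congr rfl fun τ _ => ?_
    have h2 : ∀ σ ∈ (Finset.univ : Finset (N →+* ℂ)).filter
        (fun σ => σ.comp (algebraMap L0 N) = τ),
        Real.log (max 1 ‖σ y‖) = Real.log (max 1 ‖τ x0‖) := by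
      intro σ hσ
      rw [← (Finset.mem_filter.mp hσ).2]
      rfl
    rw [Finset.sum_congr rfl h2, Finset.sum_const, nsmul_eq_mul]
    congr 1
    have h3 := natCard_ext L0 N τ
    rw [Nat.card_eq_fintype_card, Fintype.card_subtype] at h3
    exact_mod_cast h3
  rw [hsum, htow]
  ring

end Pool.Agent.X186.MK
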